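import Mathlib

/-! JOB FANO-A (MP_3acf9a_ag, helper49): the function field of the surface
w^2 = 1 + s x^2 + s y^2 + x^2 y^2 with its Poisson bracket. By helper24. -/

set_option autoImplicit false

namespace Pool.Agent.Helper24.FanoA

open MvPolynomial TensorProduct

abbrev A := MvPolynomial (Fin 2) ℂ
abbrev L := FractionRing A

noncomputable def fP (s : ℂ) : A := 1 + C s * X 0 ^ 2 + C s * X 1 ^ 2 + X 0 ^ 2 * X 1 ^ 2

lemma poly_not_sq (s : ℂ) (h0 : s ≠ 0) (p : Polynomial ℂ) :
    p ^ 2 ≠ 1 + Polynomial.C s * Polynomial.X ^ 2 := by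
  intro h
  have hd : (1 + Polynomial.C s * Polynomial.X ^ 2 : Polynomial ℂ).natDegree = 2 := by
    compute_degree!
  have hp : p.natDegree = 1 := by
    have := congrArg Polynomial.natDegree h
    rw [Polynomial.natDegree_pow, hd] at this
    omega
  obtain ⟨a, b, rfl⟩ : ∃ a b : ℂ, p = Polynomial.C a * Polynomial.X + Polynomial.C b :=
    Polynomial.exists_eq_X_add_C_of_natDegree_le_one hp.le
  have e : (Polynomial.C a * Polynomial.X + Polynomial.C b : Polynomial ℂ) ^ 2 =
      Polynomial.C (a ^ 2) * Polynomial.X ^ 2 + Polynomial.C (2 * a * b) * Polynomial.X + Polynomial.C (b ^ 2) := by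
    simp only [map_pow, map_mul, map_ofNat]; ring
  rw [e] at h
  have c0 := congrArg (fun q => Polynomial.coeff q 0) h
  have c1 := congrArg (fun q => Polynomial.coeff q 1) h
  have c2 := congrArg (fun q => Polynomial.coeff q 2) h
  simp only [Polynomial.coeff_add, Polynomial.coeff_C_mul, Polynomial.coeff_X_pow,
    Polynomial.coeff_X, Polynomial.coeff_one, Polynomial.coeff_C] at c0 c1 c2
  norm_num at c0 c1 c2
  rcases c1 with h1 | h1
  · subst h1; exact h0 (by simpa using c2.symm)
  · subst h1; simp at c0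

lemma not_sq (s : ℂ) (h0 : s ≠ 0) (g : A) : g ^ 2 ≠ fP s := by
  intro h
  have := congrArg (aeval (![Polynomial.X, 0] : Fin 2 → Polynomial ℂ)) h
  simp only [fP, map_pow, map_add, map_mul, map_one, aeval_X, Matrix.cons_val_zero,
    Matrix.cons_val_one, ← algebraMap_eq, AlgHom.commutes] at this
  refine poly_not_sq s h0 _ (this.trans ?_)
  simp

lemma not_sq_L (s : ℂ) (h0 : s ≠ 0) (r : L) : r ^ 2 ≠ algebraMap A L (fP s) := by
  intro h
  have hi : IsIntegral A r := by
    refine ⟨Polynomial.X ^ 2 - Polynomial.C (fP s), ?_, ?_⟩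
    · exact Polynomial.monic_X_pow_sub_C _ two_ne_zero
    · simp [h]
  obtain ⟨g, rfl⟩ := (IsIntegrallyClosed.isIntegral_iff (R := A) (K := L)).1 hi
  refine not_sq s h0 g ?_
  apply IsFractionRing.injective A L
  simpa using h


section der
variable (K : Type) [Field K] [Algebra ℂ K] [Algebra A K] [IsScalarTower ℂ A K]
  [Algebra.FormallyEtale A K]

lemma exists_der (i : Fin 2) : ∃ D : Derivation ℂ K K,
    ∀ j, D (algebraMap A K (X j)) = if i = j then 1 else 0 := by
  let e := KaehlerDifferential.tensorKaehlerEquivOfFormallyEtale ℂ A K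
  let b := (KaehlerDifferential.mvPolynomialBasis ℂ (Fin 2)).baseChange K
  let φ : (KaehlerDifferential ℂ K) →ₗ[K] K := (b.coord i).comp e.symm.toLinearMap
  refine ⟨φ.compDer (KaehlerDifferential.D ℂ K), fun j => ?_⟩
  have h1 : e.symm (KaehlerDifferential.D ℂ K (algebraMap A K (X j))) = b j := by
    rw [KaehlerDifferential.tensorKaehlerEquivOfFormallyEtale_symm_D_algebraMap]
    simp [b, Module.Basis.baseChange_apply, KaehlerDifferential.mvPolynomialBasis_apply]
  change φ (KaehlerDifferential.D ℂ K (algebraMap A K (X j))) = _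
  change (b.coord i) (e.symm (KaehlerDifferential.D ℂ K (algebraMap A K (X j)))) = _
  rw [h1]
  simp [Finsupp.single_apply, eq_comm]

end der

lemma indep_L : LinearIndependent ℂ
    (fun p : ℤ × ℤ => (algebraMap A L (X 0)) ^ p.1 * (algebraMap A L (X 1)) ^ p.2) := by
  have hx : algebraMap A L (X 0) ≠ 0 := by
    rw [Ne, IsFractionRing.to_map_eq_zero_iff]; exact X_ne_zero 0
  have hy : algebraMap A L (X 1) ≠ 0 := by
    rw [Ne, IsFractionRing.to_map_eq_zero_iff]; exact X_ne_zero 1
  rw [linearIndependent_iff']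
  intro s g hs p hp
  obtain ⟨N, hN⟩ : ∃ N : ℕ, ∀ q ∈ s, -(N : ℤ) ≤ q.1 ∧ -(N : ℤ) ≤ q.2 := by
    refine ⟨s.sup (fun q => q.1.natAbs + q.2.natAbs), fun q hq => ?_⟩
    have := Finset.le_sup (f := fun q : ℤ × ℤ => q.1.natAbs + q.2.natAbs) hq
    constructor <;> omega
  let m : ℤ × ℤ → (Fin 2 →₀ ℕ) := fun q =>
    Finsupp.single 0 (q.1 + N).toNat + Finsupp.single 1 (q.2 + N).toNat
  have hm : ∀ q ∈ s, ∀ q' ∈ s, m q = m q' → q = q' := by
    intro q hq q' hq' h
    have e0 := DFunLike.congr_fun h 0
    have e1 := DFunLike.congr_fun h 1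
    simp [m] at e0 e1
    have := hN q hq; have := hN q' hq'
    ext <;> omega
  have key : ∑ q ∈ s, monomial (m q) (g q) = (0 : A) := by
    apply IsFractionRing.injective A L
    rw [map_sum, map_zero]
    have : (algebraMap A L (X 0)) ^ (N : ℤ) * (algebraMap A L (X 1)) ^ (N : ℤ) *
      ∑ q ∈ s, g q • ((algebraMap A L (X 0)) ^ q.1 * (algebraMap A L (X 1)) ^ q.2) = 0 := by
      rw [hs, mul_zero]
    rw [← this, Finset.mul_sum]
    refine Finset.sum_congr rfl fun q hq => ?_
    have h1 : monomial (m q) (g q) = C (g q) * (X 0 ^ (q.1 + N).toNat * X 1 ^ (q.2 + N).toNat) := by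
      rw [monomial_eq]
      simp only [m]
      rw [Finsupp.prod_add_index', Finsupp.prod_single_index, Finsupp.prod_single_index] <;>
        simp [pow_add]
    rw [h1, map_mul, map_mul, map_pow, map_pow, Algebra.smul_def]
    have h2 : algebraMap A L (C (g q)) = algebraMap ℂ L (g q) := by
      rw [IsScalarTower.algebraMap_apply ℂ A L]; rfl
    rw [h2, ← zpow_natCast, ← zpow_natCast, Int.toNat_of_nonneg (by have := hN q hq; omega),
      Int.toNat_of_nonneg (by have := hN q hq; omega), zpow_add₀ hx, zpow_add₀ hy]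
    ring
  have := congrArg (coeff (m p)) key
  rw [coeff_sum] at this
  rw [Finset.sum_eq_single p] at this
  · simpa using this
  · intro q hq hqp
    rw [coeff_monomial, if_neg]
    intro h; exact hqp (hm q hq p hp h)
  · intro h; exact absurd hp h


lemma qa_decomp {F : Type} [Field F] (f : F) (z : QuadraticAlgebra F f 0) :
    z = algebraMap F _ z.re + algebraMap F _ z.im * QuadraticAlgebra.omega := by
  ext <;> simp [QuadraticAlgebra.algebraMap_eq]

lemma qa_indep {F : Type} [Field F] (f : F) (a b : F)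
    (h : a • (1 : QuadraticAlgebra F f 0) + b • (QuadraticAlgebra.omega : QuadraticAlgebra F f 0) = 0) :
    a = 0 ∧ b = 0 := by
  have e0 := congrArg QuadraticAlgebra.re h
  have e1 := congrArg QuadraticAlgebra.im h
  simp [QuadraticAlgebra.re_one, QuadraticAlgebra.im_one] at e0 e1
  exact ⟨e0, e1⟩

end Pool.Agent.Helper24.FanoA

namespace Pool.Agent.Helper49.FanoA

open MvPolynomial Pool.Agent.Helper24.FanoA

/-- The function field of `w^2 = 1 + s x^2 + s y^2 + x^2 y^2`. -/
structure Model (s : ℂ) where
  K : Type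
  [field : Field K]
  [alg : Algebra ℂ K]
  x : K
  y : K
  w : K
  eqn : w ^ 2 = 1 + algebraMap ℂ K s * x ^ 2 + algebraMap ℂ K s * y ^ 2 + x ^ 2 * y ^ 2
  indep : LinearIndependent ℂ
    (fun p : ℤ × ℤ × Fin 2 => x ^ p.1 * y ^ p.2.1 * w ^ (p.2.2 : ℕ))
  frac : ∀ z : K, ∃ a ∈ Algebra.adjoin ℂ ({x, y, w} : Set K),
    ∃ b ∈ Algebra.adjoin ℂ ({x, y, w} : Set K), b ≠ 0 ∧ z = a / b
  trans : IsTranscendenceBasis ℂ (![x, y] : Fin 2 → K)
  /-- the bracket -/
  th : K → K → K
  th_add : ∀ a b c, th a (b + c) = th a b + th a c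
  th_mul : ∀ a b c, th a (b * c) = b * th a c + c * th a b
  th_const : ∀ a (c : ℂ), th a (algebraMap ℂ K c) = 0
  th_swap : ∀ a b, th a b = - th b a
  th_xy : th x y = 2 * w

theorem exists_model (s : ℂ) (h0 : s ≠ 0) (_h1 : s ^ 2 ≠ 1) : Nonempty (Model s) := by
  let f : L := algebraMap A L (fP s)
  have hf : Fact (∀ r : L, r ^ 2 ≠ f + 0 * r) := ⟨fun r => by
    rw [zero_mul, add_zero]; exact not_sq_L s h0 r⟩
  let K := QuadraticAlgebra L f 0
  let x : K := algebraMap A K (X 0)
  let y : K := algebraMap A K (X 1)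
  let w : K := QuadraticAlgebra.omega
  have hx : x = algebraMap L K (algebraMap A L (X 0)) := IsScalarTower.algebraMap_apply A L K _
  have hy : y = algebraMap L K (algebraMap A L (X 1)) := IsScalarTower.algebraMap_apply A L K _
  have hww : w * w = algebraMap L K f := by
    have := QuadraticAlgebra.omega_mul_omega_eq_mk (a := f) (b := (0 : L))
    rw [show w * w = _ from this]; rfl
  have heq : w ^ 2 = 1 + algebraMap ℂ K s * x ^ 2 + algebraMap ℂ K s * y ^ 2 + x ^ 2 * y ^ 2 := by
    have hc : algebraMap ℂ K s = algebraMap A K (C s) := IsScalarTower.algebraMap_apply ℂ A K s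
    rw [sq w, hww, hc]
    change algebraMap L K (algebraMap A L (fP s)) = _
    rw [← IsScalarTower.algebraMap_apply A L K]
    simp only [fP, map_add, map_mul, map_pow, map_one]
    rfl
  have : Algebra.FormallyEtale A L := Algebra.FormallyEtale.of_isLocalization (nonZeroDivisors A)
  have : Algebra.IsSeparable L K := inferInstance
  have : Algebra.FormallyEtale L K := Algebra.FormallyEtale.of_isSeparable L K
  have : Algebra.FormallyEtale A K := Algebra.FormallyEtale.comp A L K
  obtain ⟨D0, hD0⟩ := exists_der K 0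
  obtain ⟨D1, hD1⟩ := exists_der K 1
  have hD0x : D0 x = 1 := by simpa using hD0 0
  have hD0y : D0 y = 0 := by simpa using hD0 1
  have hD1x : D1 x = 0 := by simpa using hD1 0
  have hD1y : D1 y = 1 := by simpa using hD1 1
  have : Algebra.IsAlgebraic A K := by
    have : Algebra.IsAlgebraic A L := IsLocalization.isAlgebraic L (nonZeroDivisors A)
    have : Algebra.IsAlgebraic L K := inferInstance
    exact Algebra.IsAlgebraic.trans A L K
  have htr : IsTranscendenceBasis ℂ (![x, y] : Fin 2 → K) := by
    have h := (IsTranscendenceBasis.mvPolynomial (Fin 2) ℂ).algebraMap_comp (A := K)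
    convert! h using 1
    funext i
    fin_cases i <;> rfl
  have hind : LinearIndependent ℂ
      (fun p : ℤ × ℤ × Fin 2 => x ^ p.1 * y ^ p.2.1 * w ^ (p.2.2 : ℕ)) := by
    have hb : LinearIndependent L (fun i : Fin 2 => w ^ (i : ℕ)) := by
      rw [Fintype.linearIndependent_iff]
      intro g hg
      have e : g 0 • (1 : K) + g 1 • w = 0 := by
        simpa [Fin.sum_univ_two] using hg
      obtain ⟨e0, e1⟩ := qa_indep f (g 0) (g 1) e
      intro i
      fin_cases i
      · exact e0
      · exact e1
    have := linearIndependent_smul indep_L hb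
    have h3 := this.comp (Equiv.prodAssoc ℤ ℤ (Fin 2)).symm (Equiv.injective _)
    convert h3 using 1
    ext1 p
    simp only [Function.comp, Equiv.prodAssoc_symm_apply, Algebra.smul_def, map_mul, map_zpow₀,
      ← hx, ← hy]
  have hfr : ∀ z : K, ∃ a ∈ Algebra.adjoin ℂ ({x, y, w} : Set K),
    ∃ b ∈ Algebra.adjoin ℂ ({x, y, w} : Set K), b ≠ 0 ∧ z = a / b := by
    intro z
    have hmem : z ∈ IntermediateField.adjoin ℂ ({x, y, w} : Set K) := by
      have hA : ∀ p : A, algebraMap A K p ∈ IntermediateField.adjoin ℂ ({x, y, w} : Set K) := by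
        intro p
        induction p using MvPolynomial.induction_on with
        | C a =>
          have : algebraMap A K (C a) = algebraMap ℂ K a := (IsScalarTower.algebraMap_apply ℂ A K a).symm
          rw [this]
          exact IntermediateField.algebraMap_mem _ _
        | add p q hp hq => rw [map_add]; exact add_mem hp hq
        | mul_X p i hp =>
          rw [map_mul]
          refine mul_mem hp ?_
          fin_cases i
          · exact IntermediateField.subset_adjoin _ _ (by simp [x])
          · exact IntermediateField.subset_adjoin _ _ (by simp [y])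
      have hL : ∀ r : L, algebraMap L K r ∈ IntermediateField.adjoin ℂ ({x, y, w} : Set K) := by
        intro r
        obtain ⟨a, b, hb, rfl⟩ := IsFractionRing.div_surjective (A := A) r
        rw [map_div₀, ← IsScalarTower.algebraMap_apply A L K, ← IsScalarTower.algebraMap_apply A L K]
        exact div_mem (hA a) (hA b)
      have hz : z = algebraMap L K z.re + algebraMap L K z.im * w := qa_decomp f z
      rw [hz]
      exact add_mem (hL _) (mul_mem (hL _) (IntermediateField.subset_adjoin _ _ (by simp)))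
    obtain ⟨a, ha, b, hb, e⟩ := IntermediateField.mem_adjoin_iff_div.1 hmem
    by_cases h : b = 0
    · refine ⟨0, zero_mem _, 1, one_mem _, one_ne_zero, ?_⟩
      rw [e, h]; simp
    · exact ⟨a, ha, b, hb, h, e⟩
  exact ⟨{ K := K, x := x, y := y, w := w, eqn := heq, indep := hind, frac := hfr, trans := htr,
           th := fun a b => 2 * w * (D0 a * D1 b - D1 a * D0 b)
           th_add := fun a b c => by simp only [map_add]; ring
           th_mul := fun a b c => by simp only [Derivation.leibniz, smul_eq_mul]; ring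
           th_const := fun a c => by simp
           th_swap := fun a b => by ring
           th_xy := by rw [hD0x, hD0y, hD1x, hD1y]; ring }⟩

end Pool.Agent.Helper49.FanoA
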